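import Pool.Agent.Helper97.TI.Defs

set_option autoImplicit false
open MvPolynomial

namespace TI

section SYS
variable {κ d n : ℕ} {K : Type} [Field K] [Algebra ℂ K] [Algebra (RR κ) K]
  [IsScalarTower ℂ (RR κ) K]

/-- the transition matrix from the derivations `Dt` to the derivations `der` -/
noncomputable def K1_C (S : Sys κ d n K) : Matrix (Fin n) (Fin n) K :=
  Matrix.of fun k j => S.Dt k (xb κ K (S.l j))

theorem K1_Dt (S : Sys κ d n K) (b : Fin n → K) :
    Dl S.Dt b = (K1_C S).det * Dl S.der b := by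
  unfold Dl
  rw [← Matrix.det_mul]
  congr 1
  ext k j
  rw [Matrix.mul_apply]
  show S.Dt k (b j) = ∑ i, S.Dt k (xb κ K (S.l i)) * S.der i (b j)
  exact S.der_span (S.Dt k) (b j)

theorem K1_Dt_φ (S : Sys κ d n K) (b : Fin n → K) :
    Dl S.Dt (fun j => S.φ (b j)) = S.φ (Dl S.der b) := by
  unfold Dl
  rw [AlgHom.map_det]
  congr 1
  ext k j
  exact S.Dt_φ k (b j)

theorem K1_x (S : Sys κ d n K) : Dl S.der (fun j => xb κ K (S.l j)) = 1 := by
  unfold Dl
  have : (Matrix.of fun k j => S.der k (xb κ K (S.l j))) = (1 : Matrix (Fin n) (Fin n) K) := by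
    ext k j
    rw [Matrix.one_apply]
    exact S.der_x k j
  rw [this, Matrix.det_one]

theorem K1_CJ (S : Sys κ d n K) : (K1_C S).det * S.J = 1 := by
  have h1 := K1_Dt S (fun j => S.φ (xb κ K (S.l j)))
  rw [K1_Dt_φ, K1_x, map_one] at h1
  exact h1.symm

/-- K1a -/
theorem Dl_phi (S : Sys κ d n K) (b : Fin n → K) :
    Dl S.der (fun j => S.φ (b j)) = S.J * S.φ (Dl S.der b) := by
  rw [← K1_Dt_φ, K1_Dt, ← mul_assoc, mul_comm S.J, K1_CJ, one_mul]

/-- K1b -/
theorem J_ne_zero (S : Sys κ d n K) : S.J ≠ 0 := by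
  intro h
  have := K1_CJ S
  rw [h, mul_zero] at this
  exact zero_ne_one this

/-- K1c -/
theorem Dl_Dt (S : Sys κ d n K) (b : Fin n → K) :
    Dl S.Dt b = Dl S.der b / S.J := by
  rw [K1_Dt, eq_div_iff (J_ne_zero S), mul_right_comm, K1_CJ, one_mul]

end SYS

end TI
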