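import Pool.Agent.Helper5.TI.K1

set_option autoImplicit false
set_option linter.unusedSectionVars false
open MvPolynomial

namespace TI

section SYS
variable {κ d n : ℕ} {K : Type} [Field K] [Algebra ℂ K] [Algebra (RR κ) K]
  [IsScalarTower ℂ (RR κ) K]

/-- chain rule for polynomials -/
theorem K2_chain (D : Derivation ℂ K K) (p : RR κ) :
    D (algebraMap (RR κ) K p) =
      ∑ i, algebraMap (RR κ) K (pderiv i p) * D (xb κ K i) := by
  induction p using MvPolynomial.induction_on with
  | C a =>
    have e : algebraMap (RR κ) K (C a) = algebraMap ℂ K a := by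
      rw [IsScalarTower.algebraMap_apply ℂ (RR κ) K]
      rfl
    rw [e, Derivation.map_algebraMap]
    symm
    apply Finset.sum_eq_zero
    intro i _
    rw [pderiv_C, map_zero, zero_mul]
  | add p q hp hq =>
    rw [map_add, map_add, hp, hq, ← Finset.sum_add_distrib]
    refine Finset.sum_congr rfl fun i _ => ?_
    rw [map_add, map_add, add_mul]
  | mul_X p j hp =>
    rw [map_mul, Derivation.leibniz, smul_eq_mul, smul_eq_mul, hp, Finset.mul_sum]
    have e : ∀ i, algebraMap (RR κ) K (pderiv i (p * X j)) * D (xb κ K i) =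
        algebraMap (RR κ) K (X j) * (algebraMap (RR κ) K (pderiv i p) * D (xb κ K i)) +
        (if i = j then algebraMap (RR κ) K p * D (xb κ K j) else 0) := by
      intro i
      rw [pderiv_mul, map_add, map_mul, map_mul]
      by_cases hij : i = j
      · subst hij
        rw [pderiv_X_self, map_one, if_pos rfl]
        ring
      · rw [pderiv_X_of_ne (fun h => hij h.symm), map_zero, if_neg hij]
        ring
    rw [Finset.sum_congr rfl fun i _ => e i, Finset.sum_add_distrib,
      Finset.sum_ite_eq' Finset.univ j, if_pos (Finset.mem_univ j), add_comm]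
    rfl

/-- K2a -/
theorem Dl_mem_M (S : Sys κ d n K) (b : Fin n → RR κ) :
    Dl S.der (fun j => algebraMap (RR κ) K (b j)) ∈ S.M := by
  classical
  have h1 : Dl S.der (fun j => algebraMap (RR κ) K (b j)) =
      Matrix.detRowAlternating (fun j : Fin n => ∑ i : Fin κ,
        algebraMap (RR κ) K (pderiv i (b j)) • fun k : Fin n => S.der k (xb κ K i)) := by
    unfold Dl
    rw [← Matrix.det_transpose]
    show Matrix.det _ = Matrix.det _
    congr 1
    ext j k
    rw [Matrix.transpose_apply, Matrix.of_apply, Finset.sum_apply, K2_chain]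
    rfl
  have h2 : Dl S.der (fun j => algebraMap (RR κ) K (b j)) =
      ∑ l' : Fin n → Fin κ, (∏ j, pderiv (l' j) (b j)) • S.Dx l' := by
    rw [h1]
    have h3 := (Matrix.detRowAlternating (R := K) (n := Fin n)).toMultilinearMap.map_sum
      (fun (j : Fin n) (i : Fin κ) =>
        algebraMap (RR κ) K (pderiv i (b j)) • fun k : Fin n => S.der k (xb κ K i))
    refine h3.trans (Finset.sum_congr rfl fun l' _ => ?_)
    rw [MultilinearMap.map_smul_univ, smul_eq_mul, Algebra.smul_def, map_prod]
    congr 1
    unfold Sys.Dx Dl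
    rw [← Matrix.det_transpose]
    rfl
  rw [h2]
  exact Submodule.sum_mem _ fun l' _ =>
    Submodule.smul_mem _ _ (Submodule.subset_span ⟨l', rfl⟩)

/-- K2b -/
theorem Φ_smul (S : Sys κ d n K) (a : RR κ) (m : K) : S.Φ (a • m) = phi S.F a • S.Φ m := by
  show S.φ (a • m) * S.J = phi S.F a • (S.φ m * S.J)
  rw [Algebra.smul_def, Algebra.smul_def, map_mul, S.hφ, mul_assoc]

/-- K2c -/
theorem Φ_mem (S : Sys κ d n K) {m : K} (hm : m ∈ S.M) : S.Φ m ∈ S.M := by
  refine Submodule.span_induction ?_ ?_ ?_ ?_ hm
  · rintro _ ⟨l', rfl⟩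
    have e : S.Φ (S.Dx l') = Dl S.der (fun j => algebraMap (RR κ) K (S.F (l' j))) := by
      show S.φ (S.Dx l') * S.J = _
      have h1 := Dl_phi S (fun j => xb κ K (l' j))
      rw [mul_comm, Sys.Dx, ← h1]
      congr 1
      funext j
      show S.φ (algebraMap (RR κ) K (X (l' j))) = _
      rw [S.hφ]
      simp
    rw [e]
    exact Dl_mem_M S _
  · rw [map_zero]
    exact Submodule.zero_mem _
  · intro x y _ _ hx hy
    rw [map_add]
    exact Submodule.add_mem _ hx hy
  · intro a x _ hx
    rw [Φ_smul]
    exact Submodule.smul_mem _ _ hx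

end SYS

end TI
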