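import Pool.Agent.Helper5.TI.K1

set_option autoImplicit false
set_option linter.unusedSectionVars false
open MvPolynomial

namespace TI

section SYS
variable {κ d n : ℕ} {K : Type} [Field K] [Algebra ℂ K] [Algebra (RR κ) K]
  [IsScalarTower ℂ (RR κ) K]

/-- scaling on homogeneous polynomials -/
theorem K4_hom {κ : ℕ} (c : ℂ) {p : RR κ} {e : ℕ} (hp : p.IsHomogeneous e) :
    aeval (fun i : Fin κ => (C c * X i : RR κ)) p = C (c ^ e) * p := by
  rw [aeval_def, eval₂_eq']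
  conv_rhs => rw [as_sum p, Finset.mul_sum]
  refine Finset.sum_congr rfl fun m hm => ?_
  have h1 : (∑ i : Fin κ, m i) = e := by
    have := hp (mem_support_iff.mp hm)
    rw [Finsupp.weight_apply, Finsupp.sum_fintype _ _ (fun i => by simp)] at this
    simpa using this
  have h2 : (∏ i : Fin κ, (C c * X i : RR κ) ^ m i) = C (c ^ e) * ∏ i : Fin κ, (X i : RR κ) ^ m i := by
    rw [← h1, ← Finset.prod_pow_eq_pow_sum, map_prod, ← Finset.prod_mul_distrib]
    refine Finset.prod_congr rfl fun i _ => ?_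
    rw [mul_pow, map_pow]
  rw [h2, monomial_eq, Finsupp.prod_fintype _ _ (fun i => by simp)]
  show C (coeff m p) * _ = _
  ring

theorem K4_smul (K : Type) [Field K] [Algebra ℂ K] [Algebra (RR κ) K]
    [IsScalarTower ℂ (RR κ) K] (c : ℂ) (p : RR κ) :
    algebraMap (RR κ) K (C c * p) = c • algebraMap (RR κ) K p := by
  rw [map_mul, Algebra.smul_def, IsScalarTower.algebraMap_apply ℂ (RR κ) K]
  rfl

theorem K4_ρπ (S : Sys κ d n K) (p : RR κ) :
    S.ρ (algebraMap (RR κ) K p) =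
      algebraMap (RR κ) K (aeval (fun i : Fin κ => (C 2 * X i : RR κ)) p) := by
  have h : (S.ρ.comp (IsScalarTower.toAlgHom ℂ (RR κ) K)) =
      (IsScalarTower.toAlgHom ℂ (RR κ) K).comp (aeval (fun i : Fin κ => (C 2 * X i : RR κ))) := by
    apply algHom_ext
    intro i
    rw [AlgHom.comp_apply, AlgHom.comp_apply, aeval_X]
    show S.ρ (xb κ K i) = algebraMap (RR κ) K (C 2 * X i)
    rw [S.hρ, K4_smul]
    rfl
  exact DFunLike.congr_fun h p

theorem K4_ρhom (S : Sys κ d n K) {p : RR κ} {e : ℕ} (hp : p.IsHomogeneous e) :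
    S.ρ (algebraMap (RR κ) K p) = (2:ℂ) ^ e • algebraMap (RR κ) K p := by
  rw [K4_ρπ, K4_hom 2 hp, K4_smul]

theorem K4_surj (S : Sys κ d n K) : Function.Surjective S.ρ := by
  intro f
  obtain ⟨a, b, hb, rfl⟩ := S.frac f
  refine ⟨algebraMap (RR κ) K (aeval (fun i : Fin κ => (C (1/2) * X i : RR κ)) a) /
    algebraMap (RR κ) K (aeval (fun i : Fin κ => (C (1/2) * X i : RR κ)) b), ?_⟩
  have h : ∀ p : RR κ, S.ρ (algebraMap (RR κ) K
      (aeval (fun i : Fin κ => (C (1/2) * X i : RR κ)) p)) = algebraMap (RR κ) K p := by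
    intro p
    rw [K4_ρπ]
    congr 1
    rw [← AlgHom.comp_apply]
    have h2 : ((aeval (fun i : Fin κ => (C 2 * X i : RR κ))).comp
        (aeval (fun i : Fin κ => (C (1/2) * X i : RR κ)))) = AlgHom.id ℂ (RR κ) := by
      apply algHom_ext
      intro i
      rw [AlgHom.comp_apply, aeval_X, map_mul, aeval_X, algHom_C, algebraMap_eq, ← mul_assoc,
        ← C_mul]
      norm_num
    rw [h2]
    rfl
  rw [map_div₀, h, h]

/-- `ρ` as an algebra equivalence -/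
noncomputable def K4_e (S : Sys κ d n K) : K ≃ₐ[ℂ] K :=
  AlgEquiv.ofBijective S.ρ ⟨S.ρ.toRingHom.injective, K4_surj S⟩

theorem K4_e_apply (S : Sys κ d n K) (f : K) : K4_e S f = S.ρ f := rfl

/-- conjugate of a derivation by `ρ` -/
noncomputable def K4_D (S : Sys κ d n K) (D : Derivation ℂ K K) : Derivation ℂ K K :=
  Derivation.mk' ((K4_e S).symm.toLinearMap ∘ₗ (D : K →ₗ[ℂ] K) ∘ₗ (K4_e S).toLinearMap)
    (fun a b => by
      show (K4_e S).symm (D (K4_e S (a * b))) =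
        a * (K4_e S).symm (D (K4_e S b)) + b * (K4_e S).symm (D (K4_e S a))
      rw [map_mul, Derivation.leibniz, map_add, smul_eq_mul, smul_eq_mul, map_mul, map_mul,
        AlgEquiv.symm_apply_apply, AlgEquiv.symm_apply_apply])

theorem K4_D_apply (S : Sys κ d n K) (D : Derivation ℂ K K) (f : K) :
    K4_D S D f = (K4_e S).symm (D (S.ρ f)) := rfl

/-- K4a: `ρ` and the derivations -/
theorem ρ_der (S : Sys κ d n K) (k : Fin n) (f : K) :
    S.der k (S.ρ f) = (2:ℂ) • S.ρ (S.der k f) := by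
  have h1 : K4_D S (S.der k) f = (2:ℂ) • S.der k f := by
    rw [S.der_span (K4_D S (S.der k)) f]
    have h2 : ∀ j, K4_D S (S.der k) (xb κ K (S.l j)) = if k = j then (2:ℂ) • (1:K) else 0 := by
      intro j
      rw [K4_D_apply, S.hρ, Derivation.map_smul, S.der_x, map_smul]
      split_ifs
      · rw [map_one]
      · rw [map_zero, smul_zero]
    rw [Finset.sum_congr rfl fun j _ => by rw [h2 j, ite_mul, zero_mul],
      Finset.sum_ite_eq Finset.univ k, if_pos (Finset.mem_univ k), smul_mul_assoc, one_mul]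
  rw [K4_D_apply] at h1
  have h3 := congrArg (K4_e S) h1
  rw [AlgEquiv.apply_symm_apply, map_smul, K4_e_apply] at h3
  exact h3

theorem K4_ρder (S : Sys κ d n K) (k : Fin n) (f : K) {e : ℕ} (hf : S.ρ f = (2:ℂ) ^ (e + 1) • f) :
    S.ρ (S.der k f) = (2:ℂ) ^ e • S.der k f := by
  have h1 := ρ_der S k f
  rw [hf, Derivation.map_smul, pow_succ', mul_smul] at h1
  exact (smul_right_injective K (two_ne_zero (α := ℂ)) h1).symm

/-- `ρ` of a jacobian of homogeneous elements -/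
theorem K4_Dl (S : Sys κ d n K) (b : Fin n → K) {e : ℕ}
    (hb : ∀ j, S.ρ (b j) = (2:ℂ) ^ (e + 1) • b j) :
    S.ρ (Dl S.der b) = ((2:ℂ) ^ e) ^ n • Dl S.der b := by
  unfold Dl
  rw [AlgHom.map_det]
  have : (S.ρ.mapMatrix (Matrix.of fun k j => S.der k (b j))) =
      (algebraMap ℂ K ((2:ℂ) ^ e)) • (Matrix.of fun k j => S.der k (b j)) := by
    ext k j
    rw [AlgHom.mapMatrix_apply, Matrix.map_apply, Matrix.smul_apply, Matrix.of_apply,
      K4_ρder S k (b j) (hb j), smul_eq_mul, ← Algebra.smul_def]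
  rw [this, Matrix.det_smul, Fintype.card_fin, ← map_pow, ← Algebra.smul_def]

/-- K4b -/
theorem ρ_Dx (S : Sys κ d n K) (l' : Fin n → Fin κ) : S.ρ (S.Dx l') = S.Dx l' := by
  have h := K4_Dl S (fun j => xb κ K (l' j)) (e := 0) (fun j => by
    rw [S.hρ, zero_add, pow_one])
  rw [pow_zero, one_pow, one_smul] at h
  exact h

/-- K4c: `rM` is a scaling operator -/
theorem rM_scal (S : Sys κ d n K) : IsScal κ S.rM := by
  intro i m
  show (2:ℂ) ^ n • S.ρ ((X i : RR κ) • m) = (2:ℂ) • ((X i : RR κ) • ((2:ℂ) ^ n • S.ρ m))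
  have e1 : ∀ y : K, (X i : RR κ) • y = xb κ K i * y := fun y => Algebra.smul_def _ _
  rw [e1, e1, map_mul, S.hρ, smul_mul_assoc, mul_smul_comm, smul_comm]

/-- `ρ ^ d` -/
theorem K4_pow_x (S : Sys κ d n K) (r : ℕ) (i : Fin κ) :
    (S.ρ ^ r) (xb κ K i) = (2:ℂ) ^ r • xb κ K i := by
  induction r with
  | zero => rw [pow_zero, pow_zero, one_smul]; rfl
  | succ r ih =>
    rw [pow_succ', AlgHom.mul_apply, ih, map_smul, S.hρ, smul_smul, pow_succ]

/-- `ρ ∘ φ = φ ∘ ρ ^ d` -/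
theorem K4_ρφ (S : Sys κ d n K) (f : K) : S.ρ (S.φ f) = S.φ ((S.ρ ^ d) f) := by
  have h : ∀ p : RR κ, S.ρ (S.φ (algebraMap (RR κ) K p)) =
      S.φ ((S.ρ ^ d) (algebraMap (RR κ) K p)) := by
    intro p
    have h1 : ((S.ρ.comp S.φ).comp (IsScalarTower.toAlgHom ℂ (RR κ) K)) =
        ((S.φ.comp (S.ρ ^ d)).comp (IsScalarTower.toAlgHom ℂ (RR κ) K)) := by
      apply algHom_ext
      intro i
      show S.ρ (S.φ (xb κ K i)) = S.φ ((S.ρ ^ d) (xb κ K i))
      rw [K4_pow_x, map_smul]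
      unfold xb
      rw [S.hφ]
      have h2 : phi S.F (X i) = S.F i := aeval_X _ _
      rw [h2]
      exact K4_ρhom S (S.hF.hom i)
    exact DFunLike.congr_fun h1 p
  obtain ⟨a, b, hb, rfl⟩ := S.frac f
  rw [map_div₀, map_div₀, map_div₀, map_div₀, h, h]

theorem K4_ρpow (S : Sys κ d n K) {c : ℂ} {f : K} (hf : S.ρ f = c • f) (r : ℕ) :
    (S.ρ ^ r) f = c ^ r • f := by
  induction r with
  | zero => rw [pow_zero, pow_zero, one_smul]; rfl
  | succ r ih =>
    rw [pow_succ', AlgHom.mul_apply, ih, map_smul, hf, smul_smul, pow_succ]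

/-- `ρ J = 2^{n(d-1)} J` -/
theorem K4_J (S : Sys κ d n K) : S.ρ S.J = ((2:ℂ) ^ (d - 1)) ^ n • S.J := by
  have h := S.hF.hd
  refine K4_Dl S (fun j => S.φ (xb κ K (S.l j))) (e := d - 1) (fun j => ?_)
  rw [K4_ρφ, K4_pow_x, map_smul, Nat.sub_add_cancel (by omega)]

/-- K4d -/
theorem Φ_w (S : Sys κ d n K) (w : ℕ) (m : K) (hm : Hm S.rM w m) :
    Hm S.rM (d * w) (S.Φ m) := by
  have h2 : (2:ℂ) ^ n ≠ 0 := pow_ne_zero _ two_ne_zero
  have hm' : (2:ℂ) ^ n • S.ρ m = (2:ℂ) ^ w • m := hm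
  have hm1 : S.ρ m = ((2:ℂ) ^ w / 2 ^ n) • m := by
    rw [div_eq_inv_mul, mul_smul, ← hm', smul_smul, inv_mul_cancel₀ h2, one_smul]
  show (2:ℂ) ^ n • S.ρ (S.φ m * S.J) = (2:ℂ) ^ (d * w) • (S.φ m * S.J)
  rw [map_mul, K4_ρφ, K4_ρpow S hm1, map_smul, K4_J, smul_mul_smul_comm, smul_smul]
  congr 1
  have hd := S.hF.hd
  obtain ⟨e, rfl⟩ : ∃ e, d = e + 1 := ⟨d - 1, by omega⟩
  rw [Nat.add_sub_cancel, div_pow]
  have h3 : ((2:ℂ) ^ n) ^ (e + 1) ≠ 0 := pow_ne_zero _ h2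
  field_simp
  ring

/-- K4e -/
theorem φ_ρ_fix (S : Sys κ d n K) {f : K} (hf : S.ρ f = f) : S.ρ (S.φ f) = S.φ f := by
  have h : S.ρ f = (1:ℂ) • f := by rw [one_smul, hf]
  rw [K4_ρφ, K4_ρpow S h, one_pow, one_smul]

end SYS

end TI
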